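import Pool.Agent.Y808.DR.Stm3

/-! Job DR-PRD: products of weighted integral elements (helper592). -/

set_option autoImplicit false

namespace Pool.Agent.Y592.DR

open Polynomial Pool.Agent.Y808.DR

universe u

/-- an explicit monic equation gives integrality -/
theorem integral_of_eq {R S : Type u} [CommRing R] [CommRing S] [Algebra R S] (y : S) (M : ℕ)
    (r : ℕ → R) (h : y ^ M + ∑ i ∈ Finset.range M, algebraMap R S (r (i + 1)) * y ^ (M - 1 - i) = 0) :
    IsIntegral R y := by
  refine ⟨X ^ M + ∑ i : Fin M, C (r (M - i)) * X ^ (i : ℕ),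
    monic_X_pow_add (degree_sum_fin_lt _), ?_⟩
  rw [eval₂_add, eval₂_X_pow, eval₂_finsetSum, ← h]
  congr 1
  rw [← Finset.sum_range_reflect, Finset.sum_range]
  refine Finset.sum_congr rfl fun i _ => ?_
  have hi := i.2
  rw [eval₂_mul, eval₂_C, eval₂_X_pow]
  have e1 : M - 1 - (i : ℕ) + 1 = M - i := by omega
  have e2 : M - 1 - (M - 1 - (i : ℕ)) = i := by omega
  rw [e1, e2]

/-- a monic equation, explicitly -/
theorem eq_of_monic {R S : Type u} [CommRing R] [CommRing S] [Algebra R S] (y : S) (f : R[X])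
    (hf : f.Monic) (h : aeval y f = 0) :
    y ^ f.natDegree + ∑ i ∈ Finset.range f.natDegree,
      algebraMap R S (f.coeff (f.natDegree - (i + 1))) * y ^ (f.natDegree - 1 - i) = 0 := by
  rw [← h, aeval_eq_sum_range, Finset.sum_range_succ, add_comm]
  congr 1
  · rw [← Finset.sum_range_reflect]
    refine Finset.sum_congr rfl fun i hi => ?_
    rw [Finset.mem_range] at hi
    rw [Algebra.smul_def]
    have e1 : f.natDegree - (f.natDegree - 1 - i + 1) = i := by omega
    have e2 : f.natDegree - 1 - (f.natDegree - 1 - i) = i := by omega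
    rw [e1, e2]
  · rw [hf.coeff_natDegree, one_smul]

/-- the weighted equation, explicitly -/
def WX (A B : Type u) [CommRing A] [CommRing B] [Algebra A B] (P : Ideal B) (j : ℕ) (b : B) :
    Prop :=
  ∃ (M : ℕ) (c : ℕ → A), (∀ i < M, algebraMap A B (c (i + 1)) ∈ P ^ ((i + 1) * j)) ∧
    b ^ M + ∑ i ∈ Finset.range M, algebraMap A B (c (i + 1)) * b ^ (M - 1 - i) = 0

theorem wx_of_weq {A B : Type u} [CommRing A] [CommRing B] [Algebra A B] {P : Ideal B} {j : ℕ}
    {b : B} (h : WEq A B P j b) : WX A B P j b := by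
  obtain ⟨f, hf, h0, hc⟩ := h
  exact ⟨f.natDegree, fun i => f.coeff (f.natDegree - i), fun i hi => hc (i + 1) (by omega),
    eq_of_monic b f hf h0⟩

theorem weq_of_wx {A B : Type u} [CommRing A] [CommRing B] [Algebra A B] {P : Ideal B} {j : ℕ}
    {b : B} (h : WX A B P j b) : WEq A B P j b := by
  obtain ⟨M, c, hc, h0⟩ := h
  rcases subsingleton_or_nontrivial A with hA | hA
  · have hB : Subsingleton B := by
      refine ⟨fun x y => ?_⟩
      have h1 : (1 : B) = 0 := by
        rw [← map_one (algebraMap A B), Subsingleton.elim (1 : A) 0, map_zero]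
      rw [← one_mul x, ← one_mul y, h1, zero_mul, zero_mul]
    refine ⟨0, Subsingleton.elim _ _, Subsingleton.elim _ _, fun i _ => ?_⟩
    rw [Subsingleton.elim (algebraMap A B (coeff 0 (natDegree 0 - i))) 0]
    exact (P ^ (i * j)).zero_mem
  · have hdeg : (∑ i : Fin M, C (c (M - i)) * X ^ (i : ℕ) : A[X]).degree < M :=
      degree_sum_fin_lt _
    have hnat : (X ^ M + ∑ i : Fin M, C (c (M - i)) * X ^ (i : ℕ) : A[X]).natDegree = M := by
      refine natDegree_eq_of_degree_eq_some ?_
      rw [degree_add_eq_left_of_degree_lt]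
      · exact degree_X_pow M
      · rw [degree_X_pow]
        exact hdeg
    refine ⟨X ^ M + ∑ i : Fin M, C (c (M - i)) * X ^ (i : ℕ), monic_X_pow_add hdeg, ?_, ?_⟩
    · rw [← h0, map_add, map_pow, aeval_X, map_sum]
      congr 1
      rw [← Finset.sum_range_reflect, Finset.sum_range]
      refine Finset.sum_congr rfl fun i _ => ?_
      have hi := i.2
      rw [map_mul, aeval_C, map_pow, aeval_X]
      have e1 : M - 1 - (i : ℕ) + 1 = M - i := by omega
      have e2 : M - 1 - (M - 1 - (i : ℕ)) = i := by omega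
      rw [e1, e2]
    · rw [hnat]
      intro i hi
      rcases Nat.eq_zero_or_pos i with rfl | hi0
      · rw [zero_mul, pow_zero, Ideal.one_eq_top]
        exact Submodule.mem_top
      · have hco : (X ^ M + ∑ i : Fin M, C (c (M - i)) * X ^ (i : ℕ) : A[X]).coeff (M - i) =
            c i := by
          rw [coeff_add, coeff_X_pow, if_neg (by omega), zero_add, finsetSum_coeff]
          rw [Finset.sum_eq_single (⟨M - i, by omega⟩ : Fin M)]
          · rw [coeff_C_mul, coeff_X_pow, if_pos rfl, mul_one]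
            congr 1
            show M - (M - i) = i
            omega
          · intro k _ hk
            rw [coeff_C_mul, coeff_X_pow, if_neg, mul_zero]
            intro h
            exact hk (Fin.ext h.symm)
          · intro h
            exact absurd (Finset.mem_univ _) h
        rw [hco]
        have := hc (i - 1) (by omega)
        rwa [Nat.sub_add_cancel hi0] at this

section

variable (A B : Type u) [CommRing A] [CommRing B] [Algebra A B] (P : Ideal B)

/-- the weighted polynomials -/
def RP : Subring B[X] where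
  carrier := {g | ∀ k, ∃ a : A, algebraMap A B a ∈ P ^ k ∧ g.coeff k = algebraMap A B a}
  mul_mem' := by
    intro g h hg hh k
    choose a ha1 ha2 using hg
    choose b hb1 hb2 using hh
    refine ⟨∑ p ∈ Finset.HasAntidiagonal.antidiagonal k, a p.1 * b p.2, ?_, ?_⟩
    · rw [map_sum]
      refine Submodule.sum_mem _ fun p hp => ?_
      rw [map_mul, ← Finset.HasAntidiagonal.mem_antidiagonal.1 hp, pow_add]
      exact Ideal.mul_mem_mul (ha1 _) (hb1 _)
    · rw [coeff_mul, map_sum]
      refine Finset.sum_congr rfl fun p _ => ?_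
      rw [ha2, hb2, map_mul]
  one_mem' := by
    intro k
    rcases Nat.eq_zero_or_pos k with rfl | hk
    · refine ⟨1, ?_, ?_⟩
      · rw [pow_zero, Ideal.one_eq_top]
        exact Submodule.mem_top
      · rw [coeff_one_zero, map_one]
    · refine ⟨0, ?_, ?_⟩
      · rw [map_zero]
        exact Submodule.zero_mem _
      · rw [coeff_one, if_neg (by omega), map_zero]
  add_mem' := by
    intro g h hg hh k
    obtain ⟨a, ha1, ha2⟩ := hg k
    obtain ⟨b, hb1, hb2⟩ := hh k
    refine ⟨a + b, ?_, ?_⟩
    · rw [map_add]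
      exact Submodule.add_mem _ ha1 hb1
    · rw [coeff_add, ha2, hb2, map_add]
  zero_mem' := by
    intro k
    refine ⟨0, ?_, ?_⟩
    · rw [map_zero]
      exact Submodule.zero_mem _
    · rw [coeff_zero, map_zero]
  neg_mem' := by
    intro g hg k
    obtain ⟨a, ha1, ha2⟩ := hg k
    refine ⟨-a, ?_, ?_⟩
    · rw [map_neg]
      exact Submodule.neg_mem _ ha1
    · rw [coeff_neg, ha2, map_neg]

theorem mono_mem {a : A} {k : ℕ} (h : algebraMap A B a ∈ P ^ k) :
    C (algebraMap A B a) * X ^ k ∈ RP A B P := by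
  intro l
  by_cases hl : l = k
  · subst hl
    refine ⟨a, h, ?_⟩
    rw [coeff_C_mul, coeff_X_pow, if_pos rfl, mul_one]
  · refine ⟨0, ?_, ?_⟩
    · rw [map_zero]
      exact Submodule.zero_mem _
    · rw [coeff_C_mul, coeff_X_pow, if_neg hl, mul_zero, map_zero]

theorem integral_of_wx {j : ℕ} {b : B} (h : WX A B P j b) :
    IsIntegral (RP A B P) (C b * X ^ j) := by
  obtain ⟨M, c, hc, h0⟩ := h
  have hr : ∀ i : ℕ, ∃ r : RP A B P, 1 ≤ i → i ≤ M →
      (r : B[X]) = C (algebraMap A B (c i)) * X ^ (i * j) := by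
    intro i
    by_cases hi : 1 ≤ i ∧ i ≤ M
    · have h1 := hc (i - 1) (by omega)
      rw [Nat.sub_add_cancel hi.1] at h1
      exact ⟨⟨_, mono_mem A B P h1⟩, fun _ _ => rfl⟩
    · exact ⟨0, fun h1 h2 => absurd ⟨h1, h2⟩ hi⟩
  choose r hr using hr
  refine integral_of_eq _ M r ?_
  have h1 : (C b * X ^ j) ^ M + ∑ i ∈ Finset.range M, algebraMap (RP A B P) B[X] (r (i + 1)) *
      (C b * X ^ j) ^ (M - 1 - i) = C (b ^ M + ∑ i ∈ Finset.range M,
        algebraMap A B (c (i + 1)) * b ^ (M - 1 - i)) * X ^ (M * j) := by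
    rw [C_add, add_mul, C_pow, mul_pow, ← pow_mul, mul_comm j M]
    congr 1
    rw [map_sum, Finset.sum_mul]
    refine Finset.sum_congr rfl fun i hi => ?_
    rw [Finset.mem_range] at hi
    have h2 : algebraMap (RP A B P) B[X] (r (i + 1)) =
        C (algebraMap A B (c (i + 1))) * X ^ ((i + 1) * j) := hr (i + 1) (by omega) (by omega)
    have h3 : M * j = (i + 1) * j + j * (M - 1 - i) := by
      have : M = (i + 1) + (M - 1 - i) := by omega
      calc M * j = ((i + 1) + (M - 1 - i)) * j := by rw [← this]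
        _ = _ := by ring
    rw [h2, C_mul, C_pow, mul_pow, ← pow_mul, h3, pow_add]
    ring
  rw [h1, h0, C_0, zero_mul]

theorem wx_of_integral {j : ℕ} {b : B} (h : IsIntegral (RP A B P) (C b * X ^ j)) :
    WX A B P j b := by
  obtain ⟨f, hf, h0⟩ := h
  have h1 := eq_of_monic (C b * X ^ j) f hf (by rw [aeval_def]; exact h0)
  obtain ⟨M, hM⟩ : ∃ M : ℕ, M = f.natDegree := ⟨_, rfl⟩
  rw [← hM] at h1
  have hc : ∀ i : ℕ, ∃ a : A, algebraMap A B a ∈ P ^ (i * j) ∧
      ((f.coeff (M - i) : RP A B P) : B[X]).coeff (i * j) = algebraMap A B a := fun i =>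
    (f.coeff (M - i)).2 (i * j)
  choose c hc1 hc2 using hc
  refine ⟨M, c, fun i _ => hc1 (i + 1), ?_⟩
  have h2 := congrArg (fun g : B[X] => g.coeff (M * j)) h1
  simp only [coeff_zero, coeff_add, finsetSum_coeff] at h2
  rw [← h2]
  congr 1
  · rw [mul_pow, ← C_pow, coeff_C_mul, ← pow_mul, mul_comm j M, coeff_X_pow, if_pos rfl, mul_one]
  · refine Finset.sum_congr rfl fun i hi => ?_
    rw [Finset.mem_range] at hi
    have h3 : M * j = (i + 1) * j + j * (M - 1 - i) := by
      have : M = (i + 1) + (M - 1 - i) := by omega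
      calc M * j = ((i + 1) + (M - 1 - i)) * j := by rw [← this]
        _ = _ := by ring
    show _ = ((((f.coeff (M - (i + 1)) : RP A B P) : B[X]) *
      (C b * X ^ j) ^ (M - 1 - i))).coeff (M * j)
    rw [mul_pow, ← C_pow, ← pow_mul, h3, ← mul_assoc, coeff_mul_X_pow, coeff_mul_C, hc2 (i + 1)]

end

theorem t_PRD : S_PRD.{u} := by
  intro A B _ _ _ _ P hP j b hb
  apply weq_of_wx
  apply wx_of_integral
  induction j generalizing b with
  | zero =>
    refine integral_of_wx A B P ?_
    obtain ⟨f, hf, h0⟩ := Algebra.IsIntegral.isIntegral (R := A) b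
    refine ⟨f.natDegree, fun i => f.coeff (f.natDegree - i), fun i _ => ?_,
      eq_of_monic b f hf (by rw [aeval_def]; exact h0)⟩
    rw [mul_zero, pow_zero, Ideal.one_eq_top]
    exact Submodule.mem_top
  | succ j ih =>
    rw [pow_succ] at hb
    refine Submodule.mul_induction_on hb ?_ ?_
    · intro x hx y hy
      have h1 := ih x hx
      have h2 := integral_of_wx A B P (wx_of_weq (hP y hy))
      have h3 : C (x * y) * X ^ (j + 1) = (C x * X ^ j) * (C y * X ^ 1) := by
        rw [C_mul, pow_succ, pow_one]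
        ring
      rw [h3]
      exact h1.mul h2
    · intro x y hx hy
      rw [C_add, add_mul]
      exact hx.add hy

end Pool.Agent.Y592.DR
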